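import Mathlib

set_option autoImplicit false

namespace Pool.Agent.Results.MP_c8c065_al.JacobsonNil

open Polynomial

universe u

/-- A ring is `π`-UU if every unit has a positive power of the form `1 + nilpotent`. -/
def IsPiUU (R : Type u) [Ring R] : Prop :=
  ∀ v : Rˣ, ∃ i : ℕ, 1 ≤ i ∧ IsNilpotent ((v : R) ^ i - 1)

theorem isUnit_one_add {R : Type u} [Ring R] {j : R} (hj : j ∈ Ring.jacobson R) :
    IsUnit (1 + j) := by
  have key : ∀ a ∈ Ring.jacobson R, ∃ z : R, z * (1 + a) = 1 := by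
    intro a ha
    rw [← Ideal.jacobson_bot, Ideal.mem_jacobson_iff] at ha
    obtain ⟨z, hz⟩ := ha 1
    rw [Ideal.mem_bot] at hz
    refine ⟨z, ?_⟩
    have : z * (1 + a) = z * 1 * a + z - 1 + 1 := by noncomm_ring
    rw [this, hz, zero_add]
  obtain ⟨z, hz⟩ := key j hj
  have h1 : -z * j ∈ Ring.jacobson R := Ideal.mul_mem_left _ _ hj
  obtain ⟨w, hw⟩ := key _ h1
  have hz' : (1 : R) + -z * j = z := by
    have : z * (1 + j) = z + z * j := by noncomm_ring
    rw [this] at hz
    rw [neg_mul, ← hz]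
    abel
  rw [hz'] at hw
  have hw' : w = 1 + j := by
    calc w = w * (z * (1 + j)) := by rw [hz, mul_one]
      _ = (w * z) * (1 + j) := by rw [mul_assoc]
      _ = 1 + j := by rw [hw, one_mul]
  rw [hw'] at hw
  exact ⟨⟨1 + j, z, hw, hz⟩, rfl⟩

/-- In a commutative domain, if every element `1 + c x` is a root of unity then `x = 0`. -/
theorem domain_case {D : Type*} [CommRing D] [IsDomain D] (x : D)
    (h : ∀ c : D, ∃ i : ℕ, 1 ≤ i ∧ (1 + c * x) ^ i = 1) : x = 0 := by
  by_contra hx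
  obtain ⟨i, hi1, hi⟩ := h 1
  rw [one_mul] at hi
  have hfin : IsOfFinOrder (1 + x) := isOfFinOrder_iff_pow_eq_one.2 ⟨i, hi1, hi⟩
  set N := orderOf (1 + x) with hN
  have hNpos : 0 < N := hfin.orderOf_pos
  have hpow : (1 + x) ^ N = 1 := pow_orderOf_eq_one _
  have hsum : x * ∑ k ∈ Finset.range N, (1 + x) ^ k = 0 := by
    have := mul_geom_sum (1 + x) N
    rw [hpow, sub_self, add_sub_cancel_left] at this
    exact this
  have hsum0 : ∑ k ∈ Finset.range N, (1 + x) ^ k = 0 := by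
    rcases mul_eq_zero.1 hsum with h0 | h0
    · exact absurd h0 hx
    · exact h0
  have hdvd : x ∣ (N : D) := by
    have h1 : x ∣ ∑ k ∈ Finset.range N, ((1 + x) ^ k - 1) := by
      refine Finset.dvd_sum fun k _ => ?_
      have := sub_dvd_pow_sub_pow (1 + x) 1 k
      simpa using this
    rw [Finset.sum_sub_distrib, hsum0] at h1
    simpa using h1
  obtain ⟨c, hc⟩ := hdvd
  have hroot : ∀ k : ℤ, ∃ i : ℕ, 1 ≤ i ∧ (1 - (k : D) * N) ^ i = 1 := by
    intro k
    obtain ⟨i, hi1, hi⟩ := h (-(k : D) * c)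
    have e : 1 - (k : D) * N = 1 + -(k : D) * c * x := by rw [hc]; ring
    exact ⟨i, hi1, by rw [e]; exact hi⟩
  obtain ⟨p, hp⟩ := CharP.exists D
  rcases CharP.char_is_prime_or_zero D p with hpp | hp0
  · haveI : Fact p.Prime := ⟨hpp⟩
    have hpN : ¬ p ∣ N := by
      rintro ⟨m, hm⟩
      have h1 : ((1 + x) ^ m - 1) ^ p = 0 := by
        rw [sub_pow_char, one_pow, ← pow_mul, mul_comm, ← hm, hpow, sub_self]
      have h2 : (1 + x) ^ m = 1 := sub_eq_zero.1 (pow_eq_zero_iff (hpp.ne_zero) |>.1 h1)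
      have hmpos : 0 < m := by
        rcases Nat.eq_zero_or_pos m with h0 | h0
        · rw [h0, mul_zero] at hm; omega
        · exact h0
      have h3 : N ≤ m := orderOf_le_of_pow_eq_one hmpos h2
      have h4 := hpp.two_le
      nlinarith
    have hcop : IsCoprime (N : ℤ) (p : ℤ) := by
      have : Nat.Coprime N p := ((Nat.Prime.coprime_iff_not_dvd hpp).2 hpN).symm
      exact_mod_cast Nat.isCoprime_iff_coprime.2 this
    obtain ⟨a, b, hab⟩ := hcop
    obtain ⟨n, hn1, hn⟩ := hroot a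
    have h5 : (a : D) * (N : D) = 1 := by
      have h6 : ((a * N + b * p : ℤ) : D) = 1 := by rw [hab]; simp
      push_cast at h6
      rw [CharP.cast_eq_zero D p, mul_zero, add_zero] at h6
      exact h6
    rw [h5, sub_self, zero_pow (by omega)] at hn
    exact zero_ne_one hn
  · subst hp0
    have : CharZero D := CharP.charP_to_charZero D
    obtain ⟨n, hn1, hn⟩ := hroot 3
    have h5 : ((1 - 3 * (N : ℤ) : ℤ) : D) ^ n = 1 := by
      push_cast
      simpa using hn
    have h6 : (1 - 3 * (N : ℤ)) ^ n = 1 := by exact_mod_cast h5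
    have h7 : IsUnit (1 - 3 * (N : ℤ)) := IsUnit.of_pow_eq_one h6 (by omega)
    rcases Int.isUnit_iff.1 h7 with h8 | h8 <;> omega

/-- The Jacobson radical of every `π`-UU ring is nil. -/
theorem result (R : Type u) [Ring R] (hR : IsPiUU R) (j : R) (hj : j ∈ Ring.jacobson R) :
    IsNilpotent j := by
  set φ : ℤ[X] →ₐ[ℤ] R := aeval j with hφ
  have hφX : φ X = j := aeval_X j
  by_contra hnil
  have hrad : (X : ℤ[X]) ∉ (RingHom.ker φ).radical := by
    rintro ⟨n, hn⟩
    apply hnil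
    refine ⟨n, ?_⟩
    have : φ (X ^ n) = 0 := hn
    rwa [map_pow, hφX] at this
  rw [Ideal.radical_eq_sInf, Submodule.mem_sInf] at hrad
  push Not at hrad
  obtain ⟨P, ⟨hIP, hP⟩, hXP⟩ := hrad
  have := hP
  apply hXP
  have hx : (Ideal.Quotient.mk P X) = 0 := by
    apply domain_case
    intro c
    obtain ⟨g, rfl⟩ := Ideal.Quotient.mk_surjective c
    have hmem : φ (g * X) ∈ Ring.jacobson R := by
      rw [map_mul, hφX]
      exact Ideal.mul_mem_left _ _ hj
    obtain ⟨v, hv⟩ := isUnit_one_add hmem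
    obtain ⟨i, hi1, n, hn⟩ := hR v
    refine ⟨i, hi1, ?_⟩
    have h1 : ((1 + g * X) ^ i - 1) ^ n ∈ P := by
      apply hIP
      show φ _ = 0
      rw [map_pow, map_sub, map_pow, map_add, map_one, ← hv]
      exact hn
    have h2 : (1 + g * X) ^ i - 1 ∈ P := hP.mem_of_pow_mem n h1
    have h3 := Ideal.Quotient.eq_zero_iff_mem.2 h2
    rw [map_sub, map_pow, map_add, map_mul, map_one, sub_eq_zero] at h3
    exact h3
  exact Ideal.Quotient.eq_zero_iff_mem.1 hx

end Pool.Agent.Results.MP_c8c065_al.JacobsonNil
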